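import Mathlib
import Pool.Agent.Helper89.KN.Defs

set_option autoImplicit false

namespace Pool.Agent.Helper26.KN

open Finset Pool.KN

/-- Splitting a finite set with an injective real key into few consecutive blocks. -/
lemma exists_blocks {Z : Type} (s : Finset Z) (k : Z → ℝ) (hk : Set.InjOn k s) (N K : ℕ)
    (hN : s.card ≤ N) (hK : 0 < K) (hN0 : 0 < N) :
    ∃ blk : Z → ℕ, (∀ z ∈ s, blk z < K) ∧
      (∀ z ∈ s, ∀ z' ∈ s, blk z < blk z' → k z < k z') ∧
      ∀ β, (s.filter (fun z => blk z = β)).card ≤ N / K + 1 := by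
  classical
  let rk : Z → ℕ := fun z => (s.filter (fun z' => k z' < k z)).card
  have hmono : ∀ z z', k z ≤ k z' → rk z ≤ rk z' := by
    intro z z' h
    apply Finset.card_le_card
    intro w hw
    simp only [Finset.mem_filter] at hw ⊢
    exact ⟨hw.1, lt_of_lt_of_le hw.2 h⟩
  have hstrict : ∀ z ∈ s, ∀ z', k z < k z' → rk z < rk z' := by
    intro z hz z' h
    apply Finset.card_lt_card
    rw [Finset.ssubset_iff_of_subset]
    · exact ⟨z, by simp [hz, h], by simp⟩
    · intro w hw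
      simp only [Finset.mem_filter] at hw ⊢
      exact ⟨hw.1, lt_trans hw.2 h⟩
  have hinj : Set.InjOn rk s := by
    intro z hz z' hz' h
    rcases lt_trichotomy (k z) (k z') with h1 | h1 | h1
    · have := hstrict z hz z' h1
      omega
    · exact hk hz hz' h1
    · have := hstrict z' hz' z h1
      omega
  have hlt : ∀ z ∈ s, rk z < N := by
    intro z hz
    refine lt_of_lt_of_le ?_ hN
    apply Finset.card_lt_card
    rw [Finset.ssubset_iff_of_subset (Finset.filter_subset _ _)]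
    exact ⟨z, hz, by simp⟩
  refine ⟨fun z => K * rk z / N, ?_, ?_, ?_⟩
  · intro z hz
    rw [Nat.div_lt_iff_lt_mul hN0]
    exact Nat.mul_lt_mul_of_pos_left (hlt z hz) hK
  · intro z hz z' hz' h
    by_contra hcon
    push Not at hcon
    have := hmono z' z hcon
    have h2 : K * rk z' / N ≤ K * rk z / N := Nat.div_le_div_right (Nat.mul_le_mul_left K this)
    simp only at h
    omega
  · intro β
    simp only
    rcases (s.filter (fun z => K * rk z / N = β)).eq_empty_or_nonempty with h0 | h0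
    · simp [h0]
    · obtain ⟨a, ha, hamin⟩ := (s.filter (fun z => K * rk z / N = β)).exists_min_image rk h0
      have hcard : (s.filter (fun z => K * rk z / N = β)).card ≤
          (Finset.Icc (rk a) (rk a + N / K)).card := by
        apply Finset.card_le_card_of_injOn rk
        · intro z hz
          have hz' := hz
          rw [Finset.mem_coe] at hz hz'
          rw [Finset.mem_filter] at hz ha
          rw [Finset.mem_coe, Finset.mem_Icc]
          refine ⟨hamin z hz', ?_⟩
          have h1 : K * rk z < (β + 1) * N := by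
            rw [← Nat.div_lt_iff_lt_mul hN0]
            omega
          have h2 : β * N ≤ K * rk a := by
            rw [← Nat.le_div_iff_mul_le hN0]
            omega
          have h3 : (rk z - rk a) ≤ N / K := by
            rw [Nat.le_div_iff_mul_le hK]
            have h4 : rk a ≤ rk z := hamin z hz'
            obtain ⟨d, hd⟩ := Nat.exists_eq_add_of_le h4
            rw [hd] at h1 ⊢
            have h5 : rk a + d - rk a = d := by omega
            rw [h5]
            nlinarith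
          omega
        · refine hinj.mono ?_
          intro z hz
          rw [Finset.mem_coe, Finset.mem_filter] at hz
          exact hz.1
      have : (Finset.Icc (rk a) (rk a + N / K)).card = N / K + 1 := by
        rw [Nat.card_Icc]
        generalize N / K = q
        omega
      exact hcard.trans this.le

/-- Count of triples with a related pair of entries. -/
lemma card_triples_le (M B : ℕ) (P : Fin M → Fin M → Prop) [∀ a b, Decidable (P a b)]
    (i j : Fin 3) (hij : i ≠ j) (hP : ∀ a, (Finset.univ.filter (fun b => P a b)).card ≤ B) :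
    (Finset.univ.filter (fun v : Fin 3 → Fin M => P (v i) (v j))).card ≤ M * M * B := by
  classical
  obtain ⟨l, hl⟩ : ∃ l : Fin 3, ∀ m : Fin 3, m = i ∨ m = j ∨ m = l := by
    fin_cases i <;> fin_cases j <;> simp at hij ⊢ <;> first
      | exact ⟨0, by decide⟩
      | exact ⟨1, by decide⟩
      | exact ⟨2, by decide⟩
  have h1 : (Finset.univ.filter (fun v : Fin 3 → Fin M => P (v i) (v j))).card ≤
      (Finset.univ.filter (fun q : (Fin M × Fin M) × Fin M => P q.1.1 q.2)).card := by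
    apply Finset.card_le_card_of_injOn (fun v => ((v i, v l), v j))
    · intro v hv
      simp only [Finset.coe_filter, Finset.mem_univ, true_and, Set.mem_ofPred_eq] at hv ⊢
      exact hv
    · intro v _ w _ h
      simp only [Prod.mk.injEq] at h
      funext m
      rcases hl m with h' | h' | h' <;> subst h'
      · exact h.1.1
      · exact h.2
      · exact h.1.2
  refine h1.trans ?_
  rw [Finset.card_filter, Fintype.sum_prod_type]
  calc ∑ x : Fin M × Fin M, ∑ y : Fin M, (if P (x, y).1.1 (x, y).2 then 1 else 0)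
      ≤ ∑ _x : Fin M × Fin M, B := by
        apply Finset.sum_le_sum
        intro x _
        rw [← Finset.card_filter]
        exact hP x.1
    _ = M * M * B := by
        simp

lemma exists_shear {Z : Type} (s : Finset Z) (v : Z → ℝ × ℝ) (hv : ∀ z ∈ s, v z ≠ 0) :
    ∃ t : ℝ, ∀ z ∈ s, (v z).2 + t * (v z).1 ≠ 0 := by
  classical
  obtain ⟨t, ht⟩ := Infinite.exists_notMem_finset (s.image (fun z => -(v z).2 / (v z).1))
  refine ⟨t, fun z hz h => ?_⟩
  by_cases h1 : (v z).1 = 0
  · rw [h1] at h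
    simp at h
    exact hv z hz (Prod.ext h1 h)
  · apply ht
    rw [Finset.mem_image]
    refine ⟨z, hz, ?_⟩
    field_simp
    linarith

/-- Angular keys: a finite colouring of the labels such that the orientation of two labels of
different blocks around `c` is determined by their colours, and every block is small. -/
lemma exists_colour {Z : Type} (s : Finset Z) (lab : Z → ℝ × ℝ) (c : ℝ × ℝ)
    (hs : ∀ z ∈ s, ∀ z' ∈ s, z ≠ z' → br (lab z) (lab z') c ≠ 0)
    (h2 : ∀ z ∈ s, ∃ z' ∈ s, z' ≠ z) (N K : ℕ)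
    (hN : s.card ≤ N) (hK : 0 < K) (hN0 : 0 < N) :
    ∃ κ : Z → Fin K × Bool,
      (∀ β : Fin K, (s.filter (fun z => (κ z).1 = β)).card ≤ N / K + 1) ∧
      ∀ z ∈ s, ∀ z' ∈ s, ∀ w ∈ s, ∀ w' ∈ s, κ z = κ w → κ z' = κ w' → (κ z).1 ≠ (κ z').1 →
        ((0 < br (lab z) (lab z') c ↔ 0 < br (lab w) (lab w') c) ∧
         (br (lab z) (lab z') c < 0 ↔ br (lab w) (lab w') c < 0)) := by
  classical
  have hbr : ∀ a b : ℝ × ℝ, br a b c = (a - c).1 * (b - c).2 - (a - c).2 * (b - c).1 := by
    intro a b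
    simp only [br, Prod.fst_sub, Prod.snd_sub]
    ring
  have hv : ∀ z ∈ s, lab z - c ≠ 0 := by
    intro z hz h
    obtain ⟨z', hz', hne⟩ := h2 z hz
    apply hs z hz z' hz' (Ne.symm hne)
    rw [hbr, h]
    simp
  obtain ⟨t, ht⟩ := exists_shear s (fun z => lab z - c) hv
  set hh : Z → ℝ := fun z => (lab z - c).2 + t * (lab z - c).1 with hhdef
  set k : Z → ℝ := fun z => (lab z - c).1 / hh z with hkdef
  have hformula : ∀ z ∈ s, ∀ z' ∈ s, br (lab z) (lab z') c = hh z * hh z' * (k z - k z') := by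
    intro z hz z' hz'
    have e1 := ht z hz
    have e2 := ht z' hz'
    have e3 : hh z ≠ 0 := e1
    have e4 : hh z' ≠ 0 := e2
    rw [hbr, hkdef]
    simp only
    field_simp
    rw [hhdef]
    simp only
    ring
  have hinj : Set.InjOn k s := by
    intro z hz z' hz' h
    by_contra hne
    apply hs z hz z' hz' hne
    rw [hformula z hz z' hz', h]
    simp
  obtain ⟨blk, hb1, hb2, hb3⟩ := exists_blocks s k hinj N K hN hK hN0
  refine ⟨fun z => (⟨blk z % K, Nat.mod_lt _ hK⟩, decide (0 < hh z)), ?_, ?_⟩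
  · intro β
    refine le_trans (Finset.card_le_card ?_) (hb3 β.1)
    intro z hz
    rw [Finset.mem_filter] at hz ⊢
    refine ⟨hz.1, ?_⟩
    have := congrArg Fin.val hz.2
    simp only at this
    rw [Nat.mod_eq_of_lt (hb1 z hz.1)] at this
    exact this
  · intro z hz z' hz' w hw w' hw' hzw hzw' hne
    simp only [Prod.mk.injEq, Fin.mk.injEq, Nat.mod_eq_of_lt (hb1 z hz),
      Nat.mod_eq_of_lt (hb1 w hw), Nat.mod_eq_of_lt (hb1 z' hz'), Nat.mod_eq_of_lt (hb1 w' hw'),
      decide_eq_decide, ne_eq] at hzw hzw' hne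
    obtain ⟨hzw1, hzw2⟩ := hzw
    obtain ⟨hzw1', hzw2'⟩ := hzw'
    have key : (k z < k z' ∧ k w < k w') ∨ (k z' < k z ∧ k w' < k w) := by
      rcases Nat.lt_or_gt_of_ne hne with h | h
      · left
        refine ⟨hb2 z hz z' hz' h, hb2 w hw w' hw' ?_⟩
        omega
      · right
        refine ⟨hb2 z' hz' z hz h, hb2 w' hw' w hw ?_⟩
        omega
    have hpos : ∀ a ∈ s, ∀ b ∈ s, k a < k b →
        ((0 < br (lab a) (lab b) c ↔ ¬ (0 < hh a ↔ 0 < hh b)) ∧
          (br (lab a) (lab b) c < 0 ↔ (0 < hh a ↔ 0 < hh b))) := by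
      intro a ha b hb hab
      rw [hformula a ha b hb]
      have e1 : hh a ≠ 0 := ht a ha
      have e2 : hh b ≠ 0 := ht b hb
      have e3 : k a - k b < 0 := by linarith
      rcases lt_or_gt_of_ne e1 with f1 | f1 <;> rcases lt_or_gt_of_ne e2 with f2 | f2
      · have : 0 < hh a * hh b := mul_pos_of_neg_of_neg f1 f2
        have h3 : hh a * hh b * (k a - k b) < 0 := mul_neg_of_pos_of_neg this e3
        constructor
        · simp [not_lt.mpr h3.le, not_lt.mpr f1.le, not_lt.mpr f2.le]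
        · simp [h3, not_lt.mpr f1.le, not_lt.mpr f2.le]
      · have : hh a * hh b < 0 := mul_neg_of_neg_of_pos f1 f2
        have h3 : 0 < hh a * hh b * (k a - k b) := mul_pos_of_neg_of_neg this e3
        constructor
        · simp [h3, not_lt.mpr f1.le, f2]
        · simp [not_lt.mpr h3.le, not_lt.mpr f1.le, f2]
      · have : hh a * hh b < 0 := mul_neg_of_pos_of_neg f1 f2
        have h3 : 0 < hh a * hh b * (k a - k b) := mul_pos_of_neg_of_neg this e3
        constructor
        · simp [h3, not_lt.mpr f2.le, f1]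
        · simp [not_lt.mpr h3.le, not_lt.mpr f2.le, f1]
      · have : 0 < hh a * hh b := mul_pos f1 f2
        have h3 : hh a * hh b * (k a - k b) < 0 := mul_neg_of_pos_of_neg this e3
        constructor
        · simp [not_lt.mpr h3.le, f1, f2]
        · simp [h3, f1, f2]
    have hanti : ∀ a b : Z, br (lab a) (lab b) c = - br (lab b) (lab a) c := by
      intro a b
      rw [hbr, hbr]
      ring
    rcases key with ⟨k1, k2⟩ | ⟨k1, k2⟩
    · obtain ⟨p1, p2⟩ := hpos z hz z' hz' k1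
      obtain ⟨q1, q2⟩ := hpos w hw w' hw' k2
      rw [p1, p2, q1, q2, hzw2, hzw2']
      exact ⟨Iff.rfl, Iff.rfl⟩
    · obtain ⟨p1, p2⟩ := hpos z' hz' z hz k1
      obtain ⟨q1, q2⟩ := hpos w' hw' w hw k2
      rw [hanti z z', hanti w w']
      simp only [Left.neg_pos_iff, Left.neg_neg_iff]
      rw [p1, p2, q1, q2, hzw2, hzw2']
      exact ⟨Iff.rfl, Iff.rfl⟩

/-- (KN5) grouping around a point. -/
theorem grouping (γ : ℝ) (hγ : 0 < γ) :
    ∃ η : ℝ, 0 < η ∧ ∃ M₀ : ℕ, ∀ M : ℕ, M₀ ≤ M →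
      ∀ (lab : Fin M × Bool → ℝ × ℝ) (c : ℝ × ℝ) (Ex : Finset (Fin M)) (bx by' : Bool),
      (∀ z z' : Fin M × Bool, z ≠ z' → z.1 ∉ Ex → z'.1 ∉ Ex → br (lab z) (lab z') c ≠ 0) →
      ∀ T : Finset (Fin 3 → Fin M), γ * (M : ℝ) ^ 3 ≤ (T.card : ℝ) →
      (∀ v ∈ T, Function.Injective v ∧ (∀ i, v i ∉ Ex) ∧
        Cert c (lab (v 0, bx)) (lab (v 1, by')) (lab (v 2, false)) (lab (v 2, true))) →
      ∃ E F S : Finset (Fin M), η * M ≤ (E.card : ℝ) ∧ η * M ≤ (F.card : ℝ) ∧ η * M ≤ (S.card : ℝ) ∧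
        ∀ e ∈ E, ∀ f ∈ F, ∀ s ∈ S,
          Cert c (lab (e, bx)) (lab (f, by')) (lab (s, false)) (lab (s, true)) := by
  classical
  obtain ⟨K, hK⟩ := exists_nat_gt (40 / γ)
  obtain ⟨M1, hM1⟩ := exists_nat_gt (20 / γ)
  have hKpos : (0 : ℝ) < K := lt_trans (by positivity) hK
  have hK0 : 0 < K := by exact_mod_cast hKpos
  refine ⟨γ / (2 * ((K : ℝ) * 2) ^ 4), by positivity, M1 + 1, ?_⟩
  intro M hM lab c Ex bx by' hgen T hT hTc
  have hM0 : 0 < M := by omega
  have hMpos : (0 : ℝ) < M := by exact_mod_cast hM0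
  have hMM : 20 / γ < (M : ℝ) := by
    refine lt_trans hM1 ?_
    exact_mod_cast (by omega : M1 < M)
  set s : Finset (Fin M × Bool) := Finset.univ.filter (fun z => z.1 ∉ Ex) with hs
  obtain ⟨κ, hκ1, hκ2⟩ := exists_colour s lab c
    (by
      intro z hz z' hz' hne
      rw [hs, Finset.mem_filter] at hz hz'
      exact hgen z z' hne hz.2 hz'.2)
    (by
      intro z hz
      rw [hs, Finset.mem_filter] at hz
      refine ⟨(z.1, !z.2), ?_, ?_⟩
      · rw [hs, Finset.mem_filter]
        exact ⟨Finset.mem_univ _, hz.2⟩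
      · intro h
        have := congrArg Prod.snd h
        simp at this)
    (2 * M) K
    (by
      refine (Finset.card_le_univ _).trans ?_
      simp [mul_comm])
    hK0 (by omega)
  set B : ℕ := 2 * M / K + 1 with hB
  -- bad triples
  have hbad : ∀ (i j : Fin 3) (bi bj : Bool), i ≠ j →
      (Finset.univ.filter (fun v : Fin 3 → Fin M =>
        v j ∉ Ex ∧ (κ (v j, bj)).1 = (κ (v i, bi)).1)).card ≤ M * M * B := by
    intro i j bi bj hij
    apply card_triples_le M B (fun a b => b ∉ Ex ∧ (κ (b, bj)).1 = (κ (a, bi)).1) i j hij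
    intro a
    refine le_trans ?_ (hκ1 (κ (a, bi)).1)
    apply Finset.card_le_card_of_injOn (fun b => (b, bj))
    · intro b hb
      simp only [Finset.coe_filter, Finset.mem_univ, true_and, Set.mem_ofPred_eq, hs] at hb ⊢
      simpa using hb
    · intro b _ b' _ h
      exact (Prod.mk.inj h).1
  set good : (Fin 3 → Fin M) → Prop := fun v =>
    (κ (v 0, bx)).1 ≠ (κ (v 1, by')).1 ∧ (κ (v 1, by')).1 ≠ (κ (v 2, false)).1 ∧
    (κ (v 2, false)).1 ≠ (κ (v 0, bx)).1 ∧ (κ (v 1, by')).1 ≠ (κ (v 2, true)).1 ∧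
    (κ (v 2, true)).1 ≠ (κ (v 0, bx)).1 with hgood
  set T' := T.filter good with hT'
  have hcardT : T.card ≤ T'.card + 5 * (M * M * B) := by
    set B1 := Finset.univ.filter (fun v : Fin 3 → Fin M =>
        v 0 ∉ Ex ∧ (κ (v 0, bx)).1 = (κ (v 1, by')).1)
    set B2 := Finset.univ.filter (fun v : Fin 3 → Fin M =>
        v 1 ∉ Ex ∧ (κ (v 1, by')).1 = (κ (v 2, false)).1)
    set B3 := Finset.univ.filter (fun v : Fin 3 → Fin M =>
        v 2 ∉ Ex ∧ (κ (v 2, false)).1 = (κ (v 0, bx)).1)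
    set B4 := Finset.univ.filter (fun v : Fin 3 → Fin M =>
        v 1 ∉ Ex ∧ (κ (v 1, by')).1 = (κ (v 2, true)).1)
    set B5 := Finset.univ.filter (fun v : Fin 3 → Fin M =>
        v 2 ∉ Ex ∧ (κ (v 2, true)).1 = (κ (v 0, bx)).1)
    have h1 : B1.card ≤ M * M * B := hbad 1 0 by' bx (by decide)
    have h2 : B2.card ≤ M * M * B := hbad 2 1 false by' (by decide)
    have h3 : B3.card ≤ M * M * B := hbad 0 2 bx false (by decide)
    have h4 : B4.card ≤ M * M * B := hbad 2 1 true by' (by decide)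
    have h5 : B5.card ≤ M * M * B := hbad 0 2 bx true (by decide)
    have hsub : T ⊆ T' ∪ (B1 ∪ (B2 ∪ (B3 ∪ (B4 ∪ B5)))) := by
      intro v hv
      have hex := (hTc v hv).2.1
      by_cases hg : good v
      · exact Finset.mem_union_left _ (Finset.mem_filter.mpr ⟨hv, hg⟩)
      · apply Finset.mem_union_right
        rw [hgood] at hg
        simp only [ne_eq, not_and_or, not_not] at hg
        simp only [Finset.mem_union, Finset.mem_filter, Finset.mem_univ, true_and, B1, B2, B3, B4, B5]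
        have e0 := hex 0
        have e1 := hex 1
        have e2 := hex 2
        tauto
    calc T.card ≤ (T' ∪ (B1 ∪ (B2 ∪ (B3 ∪ (B4 ∪ B5))))).card := Finset.card_le_card hsub
      _ ≤ T'.card + (B1 ∪ (B2 ∪ (B3 ∪ (B4 ∪ B5)))).card := Finset.card_union_le _ _
      _ ≤ T'.card + (B1.card + (B2 ∪ (B3 ∪ (B4 ∪ B5))).card) := by
          gcongr; exact Finset.card_union_le _ _
      _ ≤ T'.card + (B1.card + (B2.card + (B3 ∪ (B4 ∪ B5)).card)) := by
          gcongr; exact Finset.card_union_le _ _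
      _ ≤ T'.card + (B1.card + (B2.card + (B3.card + (B4 ∪ B5).card))) := by
          gcongr; exact Finset.card_union_le _ _
      _ ≤ T'.card + (B1.card + (B2.card + (B3.card + (B4.card + B5.card)))) := by
          gcongr; exact Finset.card_union_le _ _
      _ ≤ T'.card + 5 * (M * M * B) := by omega
  have hBreal : (B : ℝ) ≤ 2 * M / K + 1 := by
    rw [hB]
    push_cast
    have := @Nat.cast_div_le ℝ _ _ _ (2 * M) K
    push_cast at this
    linarith
  have hT'card : γ / 2 * (M : ℝ) ^ 3 ≤ (T'.card : ℝ) := by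
    have h1 : (T.card : ℝ) ≤ T'.card + 5 * (M * M * B) := by exact_mod_cast hcardT
    have h2 : (5 : ℝ) * (M * M * B) ≤ 5 * (M * M * (2 * M / K + 1)) := by gcongr
    have h3 : (5 : ℝ) * (M * M * (2 * M / K + 1)) ≤ γ / 2 * (M : ℝ) ^ 3 := by
      have h4 : (M : ℝ) / K ≤ γ / 40 * M := by
        rw [div_le_iff₀ hKpos]
        rw [div_lt_iff₀ hγ] at hK
        nlinarith
      have h5 : (1 : ℝ) ≤ γ / 20 * M := by
        rw [div_lt_iff₀ hγ] at hMM
        linarith
      have h6 : 2 * (M : ℝ) / K + 1 ≤ γ / 10 * M := by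
        have : 2 * (M : ℝ) / K = 2 * ((M : ℝ) / K) := by ring
        rw [this]
        linarith
      calc (5 : ℝ) * (M * M * (2 * M / K + 1)) ≤ 5 * (M * M * (γ / 10 * M)) := by gcongr
        _ = γ / 2 * (M : ℝ) ^ 3 := by ring
    linarith
  -- pigeonhole
  let cls : (Fin 3 → Fin M) → ((Fin K × Bool) × (Fin K × Bool)) × ((Fin K × Bool) × (Fin K × Bool)) :=
    fun v => ((κ (v 0, bx), κ (v 1, by')), (κ (v 2, false), κ (v 2, true)))
  have hne : (Finset.univ : Finset (((Fin K × Bool) × (Fin K × Bool)) ×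
      ((Fin K × Bool) × (Fin K × Bool)))).Nonempty := by
    have : Nonempty (Fin K) := ⟨⟨0, hK0⟩⟩
    exact Finset.univ_nonempty
  obtain ⟨y, -, hy⟩ := Finset.exists_le_card_fiber_of_nsmul_le_card_of_maps_to
    (s := T') (t := Finset.univ) (f := cls) (b := γ / (2 * ((K : ℝ) * 2) ^ 4) * (M : ℝ) ^ 3)
    (fun _ _ => Finset.mem_univ _) hne
    (by
      have hc : (Finset.univ : Finset (((Fin K × Bool) × (Fin K × Bool)) ×
        ((Fin K × Bool) × (Fin K × Bool)))).card = (K * 2) ^ 4 := by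
        simp
        ring
      rw [hc, nsmul_eq_mul]
      push_cast
      refine le_trans (le_of_eq ?_) hT'card
      field_simp)
  set C := T'.filter (fun v => cls v = y) with hC
  have hCpos : 0 < (C.card : ℝ) := lt_of_lt_of_le (by positivity) hy
  obtain ⟨v0, hv0⟩ : C.Nonempty := by
    rw [← Finset.card_pos]
    exact_mod_cast hCpos
  set E : Finset (Fin M) := Finset.univ.filter (fun e => e ∉ Ex ∧ κ (e, bx) = y.1.1) with hE
  set F : Finset (Fin M) := Finset.univ.filter (fun f => f ∉ Ex ∧ κ (f, by') = y.1.2) with hF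
  set S : Finset (Fin M) := Finset.univ.filter (fun t => t ∉ Ex ∧ κ (t, false) = y.2.1 ∧
    κ (t, true) = y.2.2) with hS
  have hCmem : ∀ v ∈ C, v 0 ∈ E ∧ v 1 ∈ F ∧ v 2 ∈ S := by
    intro v hv
    rw [hC, Finset.mem_filter, hT', Finset.mem_filter] at hv
    obtain ⟨⟨hvT, -⟩, hcls⟩ := hv
    have hex := (hTc v hvT).2.1
    rw [hE, hF, hS]
    simp only [Finset.mem_filter, Finset.mem_univ, true_and]
    exact ⟨⟨hex 0, congrArg (fun q => q.1.1) hcls⟩, ⟨hex 1, congrArg (fun q => q.1.2) hcls⟩,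
      ⟨hex 2, congrArg (fun q => q.2.1) hcls, congrArg (fun q => q.2.2) hcls⟩⟩
  have hcardC : C.card ≤ E.card * F.card * S.card := by
    have : C.card ≤ ((E ×ˢ F) ×ˢ S).card := by
      apply Finset.card_le_card_of_injOn (fun v => ((v 0, v 1), v 2))
      · intro v hv
        have := hCmem v hv
        rw [Finset.mem_coe, Finset.mem_product, Finset.mem_product]
        exact ⟨⟨this.1, this.2.1⟩, this.2.2⟩
      · intro v _ w _ h
        simp only [Prod.mk.injEq] at h
        funext m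
        fin_cases m
        · exact h.1.1
        · exact h.1.2
        · exact h.2
    simpa [Finset.card_product] using this
  have hEM : E.card ≤ M := by simpa using Finset.card_le_univ E
  have hFM : F.card ≤ M := by simpa using Finset.card_le_univ F
  have hSM : S.card ≤ M := by simpa using Finset.card_le_univ S
  have hCr : γ / (2 * ((K : ℝ) * 2) ^ 4) * (M : ℝ) ^ 3 ≤ (E.card : ℝ) * F.card * S.card := by
    refine hy.trans ?_
    exact_mod_cast hcardC
  have hEM' : (E.card : ℝ) ≤ M := by exact_mod_cast hEM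
  have hFM' : (F.card : ℝ) ≤ M := by exact_mod_cast hFM
  have hSM' : (S.card : ℝ) ≤ M := by exact_mod_cast hSM
  have hM2 : (0 : ℝ) < (M : ℝ) ^ 2 := by positivity
  refine ⟨E, F, S, ?_, ?_, ?_, ?_⟩
  · have h1 : (E.card : ℝ) * F.card * S.card ≤ (E.card : ℝ) * M * M := by gcongr
    have h2 : (γ / (2 * ((K : ℝ) * 2) ^ 4) * M) * (M : ℝ) ^ 2 ≤ E.card * (M : ℝ) ^ 2 := by
      calc (γ / (2 * ((K : ℝ) * 2) ^ 4) * M) * (M : ℝ) ^ 2
          = γ / (2 * ((K : ℝ) * 2) ^ 4) * (M : ℝ) ^ 3 := by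
            generalize γ / (2 * ((K : ℝ) * 2) ^ 4) = w; ring
        _ ≤ (E.card : ℝ) * M * M := hCr.trans h1
        _ = E.card * (M : ℝ) ^ 2 := by ring
    exact le_of_mul_le_mul_right h2 hM2
  · have h1 : (E.card : ℝ) * F.card * S.card ≤ (M : ℝ) * F.card * M := by gcongr
    have h2 : (γ / (2 * ((K : ℝ) * 2) ^ 4) * M) * (M : ℝ) ^ 2 ≤ F.card * (M : ℝ) ^ 2 := by
      calc (γ / (2 * ((K : ℝ) * 2) ^ 4) * M) * (M : ℝ) ^ 2
          = γ / (2 * ((K : ℝ) * 2) ^ 4) * (M : ℝ) ^ 3 := by
            generalize γ / (2 * ((K : ℝ) * 2) ^ 4) = w; ring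
        _ ≤ (M : ℝ) * F.card * M := hCr.trans h1
        _ = F.card * (M : ℝ) ^ 2 := by ring
    exact le_of_mul_le_mul_right h2 hM2
  · have h1 : (E.card : ℝ) * F.card * S.card ≤ (M : ℝ) * M * S.card := by gcongr
    have h2 : (γ / (2 * ((K : ℝ) * 2) ^ 4) * M) * (M : ℝ) ^ 2 ≤ S.card * (M : ℝ) ^ 2 := by
      calc (γ / (2 * ((K : ℝ) * 2) ^ 4) * M) * (M : ℝ) ^ 2
          = γ / (2 * ((K : ℝ) * 2) ^ 4) * (M : ℝ) ^ 3 := by
            generalize γ / (2 * ((K : ℝ) * 2) ^ 4) = w; ring
        _ ≤ (M : ℝ) * M * S.card := hCr.trans h1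
        _ = S.card * (M : ℝ) ^ 2 := by ring
    exact le_of_mul_le_mul_right h2 hM2
  · intro e he f hf t ht
    rw [hC, Finset.mem_filter, hT', Finset.mem_filter] at hv0
    obtain ⟨⟨hvT, hg⟩, hcls⟩ := hv0
    obtain ⟨-, hex, hcert⟩ := hTc v0 hvT
    rw [hE, Finset.mem_filter] at he
    rw [hF, Finset.mem_filter] at hf
    rw [hS, Finset.mem_filter] at ht
    have hy11 : κ (v0 0, bx) = y.1.1 := congrArg (fun q => q.1.1) hcls
    have hy12 : κ (v0 1, by') = y.1.2 := congrArg (fun q => q.1.2) hcls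
    have hy21 : κ (v0 2, false) = y.2.1 := congrArg (fun q => q.2.1) hcls
    have hy22 : κ (v0 2, true) = y.2.2 := congrArg (fun q => q.2.2) hcls
    have ms : ∀ (i : Fin M) (b : Bool), i ∉ Ex → (i, b) ∈ s := by
      intro i b hi
      rw [hs, Finset.mem_filter]
      exact ⟨Finset.mem_univ _, hi⟩
    rw [hgood] at hg
    obtain ⟨g1, g2, g3, g4, g5⟩ := hg
    have c1 := hκ2 _ (ms _ bx (hex 0)) _ (ms _ by' (hex 1)) _ (ms e bx he.2.1) _ (ms f by' hf.2.1)
      (hy11.trans he.2.2.symm) (hy12.trans hf.2.2.symm) g1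
    have c2 := hκ2 _ (ms _ by' (hex 1)) _ (ms _ false (hex 2)) _ (ms f by' hf.2.1) _
      (ms t false ht.2.1) (hy12.trans hf.2.2.symm) (hy21.trans ht.2.2.1.symm) g2
    have c3 := hκ2 _ (ms _ false (hex 2)) _ (ms _ bx (hex 0)) _ (ms t false ht.2.1) _
      (ms e bx he.2.1) (hy21.trans ht.2.2.1.symm) (hy11.trans he.2.2.symm) g3
    have c4 := hκ2 _ (ms _ by' (hex 1)) _ (ms _ true (hex 2)) _ (ms f by' hf.2.1) _
      (ms t true ht.2.1) (hy12.trans hf.2.2.symm) (hy22.trans ht.2.2.2.symm) g4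
    have c5 := hκ2 _ (ms _ true (hex 2)) _ (ms _ bx (hex 0)) _ (ms t true ht.2.1) _
      (ms e bx he.2.1) (hy22.trans ht.2.2.2.symm) (hy11.trans he.2.2.symm) g5
    rcases hcert with ⟨p1, p2, p3, p4, p5⟩ | ⟨p1, p2, p3, p4, p5⟩
    · left
      exact ⟨c1.1.mp p1, c2.1.mp p2, c3.1.mp p3, c4.1.mp p4, c5.1.mp p5⟩
    · right
      exact ⟨c1.2.mp p1, c2.2.mp p2, c3.2.mp p3, c4.2.mp p4, c5.2.mp p5⟩

end Pool.Agent.Helper26.KN
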